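import Pool.Agent.Q149.WC.Prod

/-!
# Direct powers and scales
-/

set_option autoImplicit false
set_option linter.unusedSectionVars false

open scoped BigOperators Classical

noncomputable section

namespace Pool.Agent.Q149.WC

open Pool.Agent.Q149.WB
open Pool.Agent.Y63.NV (IsClassFun IsBlock numIrrBlock numWtBlock Reduced)
open Pool.Agent.Y63.AWC (pSubgroupSetoid)

/-! ### numbers -/

/-- A sequence of scales is enough. -/
theorem le_of_scales {a b m : ℕ} (hm : 2 ≤ m)
    (h : ∀ ε : ℝ, 0 < ε → ∀ x₀ : ℝ, ∃ x : ℝ, x₀ ≤ x ∧ ∀ j : ℕ, (m : ℝ) ^ 2 ^ j ≤ x →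
      (a : ℝ) ^ 2 ^ j ≤ x ^ ε * (b : ℝ) ^ 2 ^ j) : a ≤ b := by
  have hm1 : (1 : ℝ) < m := by exact_mod_cast hm
  have hm0 : (0 : ℝ) < m := by linarith
  have key : ∀ ε : ℝ, 0 < ε → (a : ℝ) ≤ (m : ℝ) ^ (2 * ε) * b := by
    intro ε hε
    obtain ⟨x, hx1, hx2⟩ := h ε hε m
    -- the largest `j` with `m ^ (2 ^ j) ≤ x`
    have hex : ∃ j : ℕ, x < (m : ℝ) ^ 2 ^ (j + 1) := by
      obtain ⟨n, hn⟩ := pow_unbounded_of_one_lt x hm1
      refine ⟨n, hn.trans_le ?_⟩
      refine pow_le_pow_right₀ hm1.le ?_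
      exact (Nat.lt_two_pow_self (n := n)).le.trans (Nat.pow_le_pow_right two_pos (Nat.le_succ n))
    set j := Nat.find hex with hj
    have hj1 : x < (m : ℝ) ^ 2 ^ (j + 1) := Nat.find_spec hex
    have hj2 : (m : ℝ) ^ 2 ^ j ≤ x := by
      rcases Nat.eq_zero_or_pos j with h0 | h0
      · rw [h0, pow_zero, pow_one]
        exact hx1
      · have h1 := Nat.find_min hex (Nat.sub_lt h0 one_pos)
        rw [not_lt] at h1
        have h6 : j - 1 + 1 = j := Nat.sub_add_cancel h0
        rw [← hj, h6] at h1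
        exact h1
    have hx0 : (0 : ℝ) ≤ x := (pow_pos hm0 _).le.trans hj2
    have h2 := hx2 j hj2
    have h3 : x ^ ε ≤ ((m : ℝ) ^ (2 * ε)) ^ 2 ^ j := by
      calc x ^ ε ≤ ((m : ℝ) ^ 2 ^ (j + 1)) ^ ε := Real.rpow_le_rpow hx0 hj1.le hε.le
        _ = ((m : ℝ) ^ (2 * ε)) ^ 2 ^ j := by
          rw [← Real.rpow_natCast, ← Real.rpow_natCast, ← Real.rpow_mul hm0.le,
            ← Real.rpow_mul hm0.le]
          congr 1
          push_cast
          rw [pow_succ]
          ring
    have h4 : (a : ℝ) ^ 2 ^ j ≤ ((m : ℝ) ^ (2 * ε) * b) ^ 2 ^ j := by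
      rw [mul_pow]
      exact h2.trans (mul_le_mul_of_nonneg_right h3 (pow_nonneg (Nat.cast_nonneg _) _))
    exact le_of_pow_le_pow_left₀ (pow_ne_zero _ two_ne_zero)
      (mul_nonneg (Real.rpow_nonneg hm0.le _) (Nat.cast_nonneg _)) h4
  have hlim : Filter.Tendsto (fun ε : ℝ => (m : ℝ) ^ (2 * ε) * b)
      (nhdsWithin 0 (Set.Ioi 0)) (nhds ((m : ℝ) ^ (2 * (0 : ℝ)) * b)) := by
    apply Filter.Tendsto.mono_left _ nhdsWithin_le_nhds
    apply Continuous.tendsto
    exact ((Real.continuous_const_rpow hm0.ne').comp (continuous_const.mul continuous_id)).mul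
      continuous_const
  have h5 : (a : ℝ) ≤ (m : ℝ) ^ (2 * (0 : ℝ)) * b := by
    refine ge_of_tendsto hlim ?_
    filter_upwards [self_mem_nhdsWithin] with ε hε
    exact key ε hε
  rw [mul_zero, Real.rpow_zero, one_mul] at h5
  exact_mod_cast h5

/-! ### direct powers -/

/-- the direct power with exponent `2 ^ n` -/
def Pw : ℕ → Type → Type
  | 0, G => G
  | n + 1, G => Pw n (G × G)

/-- the group structure -/
@[instance_reducible] def groupPw : (n : ℕ) → (G : Type) → Group G → Group (Pw n G)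
  | 0, _, i => i
  | n + 1, G, i => groupPw n (G × G) (@Prod.instGroup G G i i)

instance instGroupPw (n : ℕ) (G : Type) [i : Group G] : Group (Pw n G) := groupPw n G i

theorem finite_Pw : ∀ (n : ℕ) (G : Type) [Finite G], Finite (Pw n G)
  | 0, _, i => i
  | n + 1, G, _ => finite_Pw n (G × G)

instance (n : ℕ) (G : Type) [Finite G] : Finite (Pw n G) := finite_Pw n G

theorem card_Pw : ∀ (n : ℕ) (G : Type), Nat.card (Pw n G) = Nat.card G ^ 2 ^ n
  | 0, G => by rw [pow_zero, pow_one]; rfl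
  | n + 1, G => by
    change Nat.card (Pw n (G × G)) = _
    rw [card_Pw n (G × G), Nat.card_prod, ← pow_two, ← pow_mul, pow_succ, mul_comm 2]

variable {F : Type} [Field F] (red : integralClosure ℤ ℂ →+* F)

/-- the power of a central element -/
def pwz : (n : ℕ) → {G : Type} → [Group G] → (G → F) → (Pw n G → F)
  | 0, _, _, z => z
  | n + 1, _, _, z => pwz n (epA z z)

theorem pwz_class : ∀ (n : ℕ) {G : Type} [Group G] [Finite G] {z : G → F}, IsClassFun z →
    IsClassFun (pwz n z)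
  | 0, _, _, _, _, h => h
  | n + 1, G, _, _, z, h => by
    have := Fintype.ofFinite G
    exact pwz_class n (Cf_epA (m := z) (n := z) h h)

section

variable {p : ℕ} [hp : Fact p.Prime] [IsAlgClosed F] [CharP F p]

include hp in
theorem lst_pwz : ∀ (n : ℕ) {G : Type} [Group G] [Finite G] {z : G → F}, IsClassFun z →
    lst (pwz n z) = lst z ^ 2 ^ n
  | 0, _, _, _, z, _ => by rw [pow_zero, pow_one]; rfl
  | n + 1, G, _, _, z, h => by
    have := Fintype.ofFinite G
    change lst (pwz n (epA z z)) = _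
    rw [lst_pwz n (Cf_epA (m := z) (n := z) h h), lst_prod (p := p) h h, ← pow_two, ← pow_mul,
      pow_succ, mul_comm 2]

theorem wst_pwz : ∀ (n : ℕ) {G : Type} [Group G] [Finite G] {z : G → F}, IsClassFun z →
    wst red p (pwz n z) = wst red p z ^ 2 ^ n
  | 0, _, _, _, z, _ => by rw [pow_zero, pow_one]; rfl
  | n + 1, G, _, _, z, h => by
    have := Fintype.ofFinite G
    change wst red p (pwz n (epA z z)) = _
    rw [wst_pwz n (Cf_epA (m := z) (n := z) h h), wst_prod red h h, ← pow_two, ← pow_mul,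
      pow_succ, mul_comm 2]

/-- a class of groups closed under `G → G × G` contains the powers -/
theorem closed_Pw (C : (G : Type) → Group G → Prop)
    (hC : ∀ (G : Type) [i : Group G] [Finite G], C G i → C (G × G) inferInstance) :
    ∀ (n : ℕ) (G : Type) [i : Group G] [Finite G], C G i → C (Pw n G) inferInstance
  | 0, _, _, _, h => h
  | n + 1, G, _, _, h => closed_Pw C hC n (G × G) (hC G h)

/-- One inequality for one group, all blocks, from the approximate form for its direct powers. -/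
theorem irr_le (G : Type) [Group G] [Finite G]
    (h : ∀ ε : ℝ, 0 < ε → ∀ x₀ : ℝ, ∃ x : ℝ, x₀ ≤ x ∧ ∀ j : ℕ,
      (Nat.card (Pw j G) : ℝ) ≤ x → ∀ B : (Pw j G → F) → F, IsBlock B →
        (numIrrBlock B : ℝ) ≤ x ^ ε * numWts p red B)
    (B : (G → F) → F) (hB : IsBlock B) : numIrrBlock B ≤ numWts p red B := by
  obtain ⟨z, hz, h1, h2⟩ := of_elem (p := p) red hB
  rw [← h1, ← h2]
  have hm : 2 ≤ max (Nat.card G) 2 := le_max_right _ _
  refine le_of_scales hm fun ε hε x₀ => ?_
  obtain ⟨x, hx1, hx2⟩ := h ε hε x₀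
  refine ⟨x, hx1, fun j hj => ?_⟩
  have h3 : (Nat.card (Pw j G) : ℝ) ≤ x := by
    refine le_trans ?_ hj
    rw [card_Pw]
    push_cast
    exact pow_le_pow_left₀ (Nat.cast_nonneg _) (le_max_left _ _) _
  have h4 := to_elem red (fun B hB => hx2 j h3 B hB) (pwz j z) (pwz_class j hz)
  rw [lst_pwz (p := p) j hz, wst_pwz red j hz] at h4
  exact_mod_cast h4

theorem wts_le (G : Type) [Group G] [Finite G]
    (h : ∀ ε : ℝ, 0 < ε → ∀ x₀ : ℝ, ∃ x : ℝ, x₀ ≤ x ∧ ∀ j : ℕ,
      (Nat.card (Pw j G) : ℝ) ≤ x → ∀ B : (Pw j G → F) → F, IsBlock B →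
        (numWts p red B : ℝ) ≤ x ^ ε * numIrrBlock B)
    (B : (G → F) → F) (hB : IsBlock B) : numWts p red B ≤ numIrrBlock B := by
  obtain ⟨z, hz, h1, h2⟩ := of_elem (p := p) red hB
  rw [← h1, ← h2]
  have hm : 2 ≤ max (Nat.card G) 2 := le_max_right _ _
  refine le_of_scales hm fun ε hε x₀ => ?_
  obtain ⟨x, hx1, hx2⟩ := h ε hε x₀
  refine ⟨x, hx1, fun j hj => ?_⟩
  have h3 : (Nat.card (Pw j G) : ℝ) ≤ x := by
    refine le_trans ?_ hj
    rw [card_Pw]
    push_cast
    exact pow_le_pow_left₀ (Nat.cast_nonneg _) (le_max_left _ _) _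
  have h4 := to_elem' red (fun B hB => hx2 j h3 B hB) (pwz j z) (pwz_class j hz)
  rw [lst_pwz (p := p) j hz, wst_pwz red j hz] at h4
  exact_mod_cast h4

end

/-! ### reduced groups -/

theorem reduced_prod {p : ℕ} [hp : Fact p.Prime] {G : Type} [Group G] (h : Reduced p G) :
    Reduced p (G × G) := by
  constructor
  · intro N hN hidx
    have key : ∀ f : G →* G × G, ∀ a, f a ∈ N := by
      intro f a
      have h1 : (N.comap f).index ∣ p := by
        rw [Subgroup.index_comap, ← hidx]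
        exact Subgroup.relIndex_dvd_index_of_normal N f.range
      rcases (Nat.dvd_prime hp.out).mp h1 with h2 | h2
      · rw [Subgroup.index_eq_one] at h2
        have : a ∈ N.comap f := h2 ▸ Subgroup.mem_top a
        exact this
      · exact absurd h2 (h.perfect _ inferInstance)
    have h3 : N = ⊤ := by
      rw [eq_top_iff]
      rintro ⟨a, b⟩ -
      have h1 := N.mul_mem (key (MonoidHom.inl G G) a) (key (MonoidHom.inr G G) b)
      have h2 : MonoidHom.inl G G a * MonoidHom.inr G G b = (a, b) := by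
        change (a * 1, 1 * b) = _
        rw [mul_one, one_mul]
      rwa [h2] at h1
    rw [h3, Subgroup.index_top] at hidx
    exact hp.out.one_lt.ne hidx
  · intro M hM hMp
    have h1 : M.map (MonoidHom.fst G G) = ⊥ :=
      h.radical _ (hM.map _ (fun a => ⟨(a, 1), rfl⟩)) (hMp.map _)
    have h2 : M.map (MonoidHom.snd G G) = ⊥ :=
      h.radical _ (hM.map _ (fun a => ⟨(1, a), rfl⟩)) (hMp.map _)
    rw [eq_bot_iff]
    rintro ⟨a, b⟩ hx
    have h3 : a ∈ M.map (MonoidHom.fst G G) := ⟨(a, b), hx, rfl⟩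
    have h4 : b ∈ M.map (MonoidHom.snd G G) := ⟨(a, b), hx, rfl⟩
    rw [h1, Subgroup.mem_bot] at h3
    rw [h2, Subgroup.mem_bot] at h4
    rw [Subgroup.mem_bot, h3, h4]
    rfl

end Pool.Agent.Q149.WC
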