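import Pool.Agent.Q149.WB.Blk

/-!
# Simple modules and weights with nonvanishing central value, for direct products
-/

set_option autoImplicit false
set_option linter.unusedSectionVars false

open scoped BigOperators Classical

noncomputable section

namespace Pool.Agent.Q149.WC

open Pool.Agent.Q149.WB
open Pool.Agent.Y63.NV (centralValue IsClassFun IsWt IsIrrTrace pp span' schur' Reduced IsBlock
  numIrrBlock)
open Pool.Agent.Y63.AWC (pSubgroupSetoid numRegularClasses)
open Pool.Agent.Y930.NV (Cf)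
open Pool.Agent.Y705.NV (pow_pp)
open Pool.Agent.Y286.NV (orbit_weights)

variable {F : Type} [Field F] (red : integralClosure ℤ ℂ →+* F)

section wts

variable {G H : Type} [Group G] [Group H] [Finite G] [Finite H] {p : ℕ} [hp : Fact p.Prime]

theorem mem_normalizer_prod (A : Subgroup G) (B : Subgroup H) (x : G × H) :
    x ∈ Subgroup.normalizer ((A.prod B : Subgroup (G × H)) : Set (G × H)) ↔
      x.1 ∈ Subgroup.normalizer (A : Set G) ∧ x.2 ∈ Subgroup.normalizer (B : Set H) := by
  simp only [Subgroup.mem_normalizer_iff]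
  constructor
  · intro h
    refine ⟨fun a => ?_, fun b => ?_⟩
    · have h1 := h (a, 1)
      simpa [Subgroup.mem_prod] using h1
    · have h1 := h (1, b)
      simpa [Subgroup.mem_prod] using h1
  · rintro ⟨h1, h2⟩ ⟨a, b⟩
    have h3 := h1 a
    have h4 := h2 b
    constructor
    · rintro ⟨h5, h6⟩
      exact ⟨h3.1 h5, h4.1 h6⟩
    · rintro ⟨h5, h6⟩
      exact ⟨h3.2 h5, h4.2 h6⟩

/-- the normalizer of a product -/
def normProd (A : Subgroup G) (B : Subgroup H) :
    Subgroup.normalizer ((A.prod B : Subgroup (G × H)) : Set (G × H)) ≃*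
      Subgroup.normalizer (A : Set G) × Subgroup.normalizer (B : Set H) where
  toFun x := (⟨x.1.1, ((mem_normalizer_prod A B _).mp x.2).1⟩,
    ⟨x.1.2, ((mem_normalizer_prod A B _).mp x.2).2⟩)
  invFun y := ⟨(y.1.1, y.2.1), (mem_normalizer_prod A B _).mpr ⟨y.1.2, y.2.2⟩⟩
  left_inv _ := rfl
  right_inv _ := rfl
  map_mul' _ _ := rfl

theorem nws_prod (A : Subgroup G) (B : Subgroup H) {z : G → F} {w : H → F}
    (hz : IsClassFun z) (hw : IsClassFun w) :
    nws red p (A.prod B) (epA z w) = nws red p A z * nws red p B w := by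
  have := Fintype.ofFinite G
  have := Fintype.ofFinite H
  set NA := Subgroup.normalizer (A : Set G) with hNA
  set NB := Subgroup.normalizer (B : Set H) with hNB
  set N := Subgroup.normalizer ((A.prod B : Subgroup (G × H)) : Set (G × H)) with hN
  let φ : N →* (NA ⧸ A.subgroupOf NA) × (NB ⧸ B.subgroupOf NB) :=
    ((QuotientGroup.mk' (A.subgroupOf NA)).prodMap (QuotientGroup.mk' (B.subgroupOf NB))).comp
      (normProd A B).toMonoidHom
  have hφ : Function.Surjective φ := by
    rintro ⟨x, y⟩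
    obtain ⟨a, rfl⟩ := QuotientGroup.mk'_surjective _ x
    obtain ⟨b, rfl⟩ := QuotientGroup.mk'_surjective _ y
    exact ⟨(normProd A B).symm (a, b), rfl⟩
  have hker : φ.ker = (A.prod B).subgroupOf N := by
    ext x
    rw [MonoidHom.mem_ker, Subgroup.mem_subgroupOf]
    constructor
    · intro h
      have h1 := congrArg Prod.fst h
      have h2 := congrArg Prod.snd h
      have h3 := (QuotientGroup.eq_one_iff _).mp h1
      have h4 := (QuotientGroup.eq_one_iff _).mp h2
      exact ⟨h3, h4⟩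
    · rintro ⟨h3, h4⟩
      refine Prod.ext ?_ ?_
      · exact (QuotientGroup.eq_one_iff _).mpr h3
      · exact (QuotientGroup.eq_one_iff _).mpr h4
  have hA : Cf (psh (QuotientGroup.mk' (A.subgroupOf NA)) (fun x : NA => z x)) :=
    Cf_psh _ (QuotientGroup.mk'_surjective _) (fun g x => hz g x)
  have hB : Cf (psh (QuotientGroup.mk' (B.subgroupOf NB)) (fun x : NB => w x)) :=
    Cf_psh _ (QuotientGroup.mk'_surjective _) (fun g x => hw g x)
  have hA' : nws red p A z = dzc red p (NA ⧸ A.subgroupOf NA)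
    (psh (QuotientGroup.mk' (A.subgroupOf NA)) (fun x : NA => z x)) := nws_mk red A hz
  have hB' : nws red p B w = dzc red p (NB ⧸ B.subgroupOf NB)
    (psh (QuotientGroup.mk' (B.subgroupOf NB)) (fun x : NB => w x)) := nws_mk red B hw
  have hzw : IsClassFun (epA z w) := Cf_epA (m := z) (n := w) hz hw
  rw [nws_eq red φ hφ hker hzw, hA', hB', ← dzc_prod red p _ _ hA hB]
  congr 1
  funext k
  have f1 : Fintype N := Fintype.ofFinite _
  have f2 : Fintype NA := Fintype.ofFinite _
  have f3 : Fintype NB := Fintype.ofFinite _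
  unfold epA
  rw [psh_apply, psh_apply, psh_apply, Finset.sum_mul_sum, ← Fintype.sum_prod_type']
  refine Fintype.sum_equiv (normProd A B).toEquiv _ _ ?_
  rintro ⟨⟨a, b⟩, hx⟩
  obtain ⟨k1, k2⟩ := k
  obtain ⟨ha, hb⟩ := (mem_normalizer_prod A B _).mp hx
  have hL : φ ⟨⟨a, b⟩, hx⟩ = (k1, k2) ↔
      QuotientGroup.mk' (A.subgroupOf NA) ⟨a, ha⟩ = k1 ∧
        QuotientGroup.mk' (B.subgroupOf NB) ⟨b, hb⟩ = k2 :=
    ⟨fun h => ⟨congrArg Prod.fst h, congrArg Prod.snd h⟩, fun h => Prod.ext h.1 h.2⟩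
  have e1 : (normProd A B).toEquiv ⟨⟨a, b⟩, hx⟩ = (⟨a, ha⟩, ⟨b, hb⟩) := rfl
  rw [e1]
  dsimp only
  by_cases h1 : QuotientGroup.mk' (A.subgroupOf NA) ⟨a, ha⟩ = k1
  · by_cases h2 : QuotientGroup.mk' (B.subgroupOf NB) ⟨b, hb⟩ = k2
    · rw [if_pos (hL.mpr ⟨h1, h2⟩), if_pos h1, if_pos h2]
    · rw [if_neg (fun h => h2 (hL.mp h).2), if_neg h2, mul_zero]
  · rw [if_neg (fun h => h1 (hL.mp h).1), if_neg h1, zero_mul]

omit [Finite G] [Finite H] hp in
theorem isPGroup_prod {A : Subgroup G} {B : Subgroup H} (hA : IsPGroup p A) (hB : IsPGroup p B) :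
    IsPGroup p (A.prod B) := by
  rintro ⟨⟨a, b⟩, ha, hb⟩
  obtain ⟨k, hk⟩ := hA ⟨a, ha⟩
  obtain ⟨l, hl⟩ := hB ⟨b, hb⟩
  have hk' : a ^ p ^ k = 1 := congrArg Subtype.val hk
  have hl' : b ^ p ^ l = 1 := congrArg Subtype.val hl
  refine ⟨k + l, Subtype.ext (Prod.ext ?_ ?_)⟩
  · change a ^ p ^ (k + l) = 1
    rw [pow_add, pow_mul, hk', one_pow]
  · change b ^ p ^ (k + l) = 1
    rw [pow_add, mul_comm, pow_mul, hl', one_pow]

omit [Finite G] [Finite H] hp in
theorem isPGroup_map {K L : Type} [Group K] [Group L] (f : K →* L) {Q : Subgroup K}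
    (hQ : IsPGroup p Q) : IsPGroup p (Q.map f) := hQ.map f

theorem wst_prod {z : G → F} {w : H → F} (hz : IsClassFun z) (hw : IsClassFun w) :
    wst red p (epA z w) = wst red p z * wst red p w := by
  have i1 := Fintype.ofFinite G
  have i2 := Fintype.ofFinite H
  have f1 : Fintype {Q : Subgroup G // IsPGroup p Q} := Fintype.ofFinite _
  have f2 : Fintype {Q : Subgroup H // IsPGroup p Q} := Fintype.ofFinite _
  have f3 : Fintype {Q : Subgroup (G × H) // IsPGroup p Q} := Fintype.ofFinite _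
  have hzw : IsClassFun (epA z w) := Cf_epA (m := z) (n := w) hz hw
  have h1 := card_mul_wst red p hzw
  have h2 := card_mul_wst red p hz
  have h2' := card_mul_wst red p hw
  rw [finsum_eq_sum_of_fintype] at h1 h2 h2'
  have h3 : ∑ t : {Q : Subgroup G // IsPGroup p Q} × {Q : Subgroup H // IsPGroup p Q},
      Nat.card (Subgroup.normalizer ((t.1.1.prod t.2.1 : Subgroup (G × H)) : Set (G × H))) *
        nws red p (t.1.1.prod t.2.1) (epA z w) =
      ∑ Q : {Q : Subgroup (G × H) // IsPGroup p Q},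
        Nat.card (Subgroup.normalizer (Q.1 : Set (G × H))) * nws red p Q.1 (epA z w) := by
    refine Finset.sum_of_injOn (fun t => ⟨t.1.1.prod t.2.1, isPGroup_prod t.1.2 t.2.2⟩) ?_ ?_ ?_ ?_
    · rintro ⟨A, B⟩ - ⟨A', B'⟩ - h
      have h4 : A.1.prod B.1 = A'.1.prod B'.1 := congrArg Subtype.val h
      refine Prod.ext (Subtype.ext ?_) (Subtype.ext ?_)
      · ext a
        have h5 : ((a, 1) : G × H) ∈ A.1.prod B.1 ↔ ((a, 1) : G × H) ∈ A'.1.prod B'.1 := by
          rw [h4]
        simpa [Subgroup.mem_prod] using h5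
      · ext b
        have h5 : ((1, b) : G × H) ∈ A.1.prod B.1 ↔ ((1, b) : G × H) ∈ A'.1.prod B'.1 := by
          rw [h4]
        simpa [Subgroup.mem_prod] using h5
    · intro t _
      exact Finset.mem_coe.mpr (Finset.mem_univ _)
    · intro Q _ hQ
      have hA : IsPGroup p (Q.1.map (MonoidHom.fst G H)) := Q.2.map _
      have hB : IsPGroup p (Q.1.map (MonoidHom.snd G H)) := Q.2.map _
      rw [nws_zero red (isPGroup_prod hA hB) ?_ ?_ ?_, mul_zero]
      · intro x hx
        exact ⟨⟨x, hx, rfl⟩, ⟨x, hx, rfl⟩⟩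
      · intro h4
        apply hQ
        exact ⟨(⟨_, hA⟩, ⟨_, hB⟩), Finset.mem_coe.mpr (Finset.mem_univ _), Subtype.ext h4.symm⟩
      · intro x hx
        rw [mem_normalizer_prod]
        rw [Subgroup.mem_normalizer_iff] at hx
        constructor
        · rw [Subgroup.mem_normalizer_iff]
          intro a
          constructor
          · rintro ⟨y, hy, rfl⟩
            exact ⟨x * y * x⁻¹, (hx y).1 hy, rfl⟩
          · rintro ⟨y, hy, hya⟩
            refine ⟨x⁻¹ * y * x, (hx _).2 ?_, ?_⟩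
            · have : x * (x⁻¹ * y * x) * x⁻¹ = y := by group
              rw [this]
              exact hy
            · have hya' : y.1 = x.1 * a * x.1⁻¹ := hya
              change x.1⁻¹ * y.1 * x.1 = a
              rw [hya']
              group
        · rw [Subgroup.mem_normalizer_iff]
          intro a
          constructor
          · rintro ⟨y, hy, rfl⟩
            exact ⟨x * y * x⁻¹, (hx y).1 hy, rfl⟩
          · rintro ⟨y, hy, hya⟩
            refine ⟨x⁻¹ * y * x, (hx _).2 ?_, ?_⟩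
            · have : x * (x⁻¹ * y * x) * x⁻¹ = y := by group
              rw [this]
              exact hy
            · have hya' : y.2 = x.2 * a * x.2⁻¹ := hya
              change x.2⁻¹ * y.2 * x.2 = a
              rw [hya']
              group
    · intro t _
      rfl
  have h4 : ∀ (A : Subgroup G) (B : Subgroup H),
      Nat.card (Subgroup.normalizer ((A.prod B : Subgroup (G × H)) : Set (G × H))) *
        nws red p (A.prod B) (epA z w) =
      (Nat.card (Subgroup.normalizer (A : Set G)) * nws red p A z) *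
        (Nat.card (Subgroup.normalizer (B : Set H)) * nws red p B w) := by
    intro A B
    rw [nws_prod red A B hz hw, Nat.card_congr (normProd A B).toEquiv, Nat.card_prod]
    ring
  rw [← h3, Fintype.sum_prod_type] at h1
  simp_rw [h4, ← Finset.mul_sum, ← Finset.sum_mul, ← h2, ← h2'] at h1
  have h5 : 0 < Nat.card G * Nat.card H := Nat.mul_pos Nat.card_pos Nat.card_pos
  apply Nat.eq_of_mul_eq_mul_left h5
  rw [← Nat.card_prod, h1, Nat.card_prod]
  ring

end wts

/-! ### simple modules -/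

section irr

theorem numRegularClasses_prod (p : ℕ) [hp : Fact p.Prime] (G H : Type) [Group G] [Group H] :
    numRegularClasses p (G × H) = numRegularClasses p G * numRegularClasses p H := by
  have hd : ∀ x : G × H, ¬ p ∣ orderOf x ↔ ¬ p ∣ orderOf x.1 ∧ ¬ p ∣ orderOf x.2 := by
    intro x
    rw [Prod.orderOf, ← not_or, not_iff_not]
    constructor
    · intro h
      exact (hp.out.dvd_mul).1 (h.trans (Nat.lcm_dvd_mul _ _))
    · rintro (h | h)
      · exact h.trans (Nat.dvd_lcm_left _ _)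
      · exact h.trans (Nat.dvd_lcm_right _ _)
  unfold numRegularClasses
  rw [← Nat.card_prod]
  refine Nat.card_congr (Equiv.ofBijective (fun c =>
    (⟨ConjClasses.map (MonoidHom.fst G H) c.1, ?_⟩,
      ⟨ConjClasses.map (MonoidHom.snd G H) c.1, ?_⟩)) ⟨?_, ?_⟩)
  · obtain ⟨x, hx, ho⟩ := c.2
    exact ⟨x.1, by rw [← hx]; rfl, ((hd x).1 ho).1⟩
  · obtain ⟨x, hx, ho⟩ := c.2
    exact ⟨x.2, by rw [← hx]; rfl, ((hd x).1 ho).2⟩
  · rintro ⟨c, x, rfl, hx⟩ ⟨d, y, rfl, hy⟩ h
    apply Subtype.ext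
    have h1 : ConjClasses.mk x.1 = ConjClasses.mk y.1 :=
      congrArg Subtype.val (congrArg Prod.fst h)
    have h2 : ConjClasses.mk x.2 = ConjClasses.mk y.2 :=
      congrArg Subtype.val (congrArg Prod.snd h)
    change ConjClasses.mk x = ConjClasses.mk y
    rw [ConjClasses.mk_eq_mk_iff_isConj] at h1 h2 ⊢
    obtain ⟨a, ha⟩ := isConj_iff.1 h1
    obtain ⟨b, hb⟩ := isConj_iff.1 h2
    exact isConj_iff.2 ⟨(a, b), Prod.ext ha hb⟩
  · rintro ⟨⟨c, x, rfl, hx⟩, ⟨d, y, rfl, hy⟩⟩
    exact ⟨⟨ConjClasses.mk (x, y), (x, y), rfl, (hd _).2 ⟨hx, hy⟩⟩, rfl⟩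

variable {G H : Type} [Group G] [Group H] [Finite G] [Finite H] {p : ℕ} [hp : Fact p.Prime]

theorem pp_epA {f : G → F} {g : H → F} (hf : Reg F p f) (hg : Reg F p g) (x : G × H) :
    epA f g (pp p x) = epA f g x := by
  have hpow := pow_pp p x
  unfold pp at hpow ⊢
  have h1 := congrArg Prod.fst hpow
  have h2 := congrArg Prod.snd hpow
  unfold epA
  rw [Prod.pow_fst, Prod.pow_snd]
  rw [hf x.1 _ _ h1, hg x.2 _ _ h2]

theorem To_epA {z f : G → F} {w g : H → F} {c d : F} (hf : ∀ x, To z f x = c * f x)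
    (hg : ∀ x, To w g x = d * g x) : To (epA z w) (epA f g) = (c * d) • epA f g := by
  have : Fintype G := Fintype.ofFinite G
  have : Fintype H := Fintype.ofFinite H
  funext x
  rw [To_apply, finsum_eq_sum_of_fintype, Fintype.sum_prod_type]
  obtain ⟨a, b⟩ := x
  have e1 : ∀ (a' : G) (b' : H), epA z w (a', b') * epA f g ((a', b') * (a, b)) =
      (z a' * f (a' * a)) * (w b' * g (b' * b)) := by
    intro a' b'
    change z a' * w b' * (f (a' * a) * g (b' * b)) = _
    ring
  simp_rw [e1, ← Finset.mul_sum, ← Finset.sum_mul]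
  have h1 := hf a
  have h2 := hg b
  rw [To_apply, finsum_eq_sum_of_fintype] at h1 h2
  rw [h1, h2]
  change _ = c * d * (f a * g b)
  ring

theorem epA_indep {m n : ℕ} (φ : Fin m → G → F) (ψ : Fin n → H → F)
    (hφ : LinearIndependent F φ) (hψ : LinearIndependent F ψ) :
    LinearIndependent F (fun t : Fin m × Fin n => epA (φ t.1) (ψ t.2)) := by
  rw [Fintype.linearIndependent_iff]
  intro g hg
  have h1 := Fintype.linearIndependent_iff.mp hφ
  have h2 := Fintype.linearIndependent_iff.mp hψ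
  have h3 : ∀ b : H, ∀ i, ∑ j : Fin n, g (i, j) * ψ j b = 0 := by
    intro b
    apply h1
    funext a
    have h4 := congrFun hg (a, b)
    simp only [Finset.sum_apply, Pi.smul_apply, Pi.zero_apply, smul_eq_mul] at h4 ⊢
    rw [Fintype.sum_prod_type] at h4
    rw [← h4]
    refine Finset.sum_congr rfl fun i _ => ?_
    rw [Finset.sum_mul]
    refine Finset.sum_congr rfl fun j _ => ?_
    change _ = g (i, j) * (φ i a * ψ j b)
    ring
  rintro ⟨i, j⟩
  refine h2 (fun j => g (i, j)) ?_ j
  funext b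
  simp only [Finset.sum_apply, Pi.smul_apply, Pi.zero_apply, smul_eq_mul]
  exact h3 b i

theorem lst_prod [IsAlgClosed F] [CharP F p] {z : G → F} {w : H → F} (hz : IsClassFun z)
    (hw : IsClassFun w) : lst (epA z w) = lst z * lst w := by
  have f0 : Fintype G := Fintype.ofFinite G
  have f0' : Fintype H := Fintype.ofFinite H
  have hfin : Finite {φ : G → F // IsIrrTrace φ} := (Pool.Agent.Y914.NV.irr F G).1.to_subtype
  have hfin' : Finite {φ : H → F // IsIrrTrace φ} := (Pool.Agent.Y914.NV.irr F H).1.to_subtype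
  have hfin2 : Finite {φ : G × H → F // IsIrrTrace φ} :=
    (Pool.Agent.Y914.NV.irr F (G × H)).1.to_subtype
  set m := Nat.card {φ : G → F // IsIrrTrace φ} with hm
  set n := Nat.card {φ : H → F // IsIrrTrace φ} with hn
  let e : Fin m ≃ {φ : G → F // IsIrrTrace φ} := (Finite.equivFin _).symm
  let e' : Fin n ≃ {φ : H → F // IsIrrTrace φ} := (Finite.equivFin _).symm
  set φ : Fin m → G → F := fun i => (e i).1 with hφ
  set ψ : Fin n → H → F := fun i => (e' i).1 with hψ
  have hφi : ∀ i, IsIrrTrace (φ i) := fun i => (e i).2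
  have hψi : ∀ i, IsIrrTrace (ψ i) := fun i => (e' i).2
  have hind : LinearIndependent F φ :=
    (Pool.Agent.Y914.NV.irr F G).2.comp e e.injective
  have hind' : LinearIndependent F ψ :=
    (Pool.Agent.Y914.NV.irr F H).2.comp e' e'.injective
  -- eigenvalues
  have hval : ∀ (K : Type) [Group K] [Finite K] (v : K → F), IsClassFun v → ∀ χ : K → F,
      IsIrrTrace χ → ∃ c : F, (∀ x, To v χ x = c * χ x) ∧
        (c ≠ 0 ↔ ∃ x, ∑ᶠ g : K, v g * χ (g * x) ≠ 0) := by
    intro K _ _ v hv χ hχ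
    obtain ⟨⟨x, hx⟩, B, hB, hact⟩ := schur' F K χ hχ
    refine ⟨B v, fun y => hact v hv y, ?_⟩
    constructor
    · intro hc
      exact ⟨x, by rw [hact v hv x]; exact mul_ne_zero hc hx⟩
    · rintro ⟨y, hy⟩ hc
      rw [hact v hv y, hc, zero_mul] at hy
      exact hy rfl
  choose c hc1 hc2 using fun i => hval G z hz (φ i) (hφi i)
  choose c' hc1' hc2' using fun i => hval H w hw (ψ i) (hψi i)
  have hzw : IsClassFun (epA z w) := Cf_epA (m := z) (n := w) hz hw
  choose d hd1 hd2 using fun χ : {χ : G × H → F // IsIrrTrace χ} =>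
    hval (G × H) (epA z w) hzw χ.1 χ.2
  set fam : Fin m × Fin n → G × H → F := fun t => epA (φ t.1) (ψ t.2) with hfam
  have hfi : LinearIndependent F fam := epA_indep φ ψ hind hind'
  -- the two bases span the same space
  have hspan : Submodule.span F (Set.range fam) =
      Submodule.span F (Set.range (fun χ : {χ : G × H → F // IsIrrTrace χ} => χ.1)) := by
    have hle : Submodule.span F (Set.range fam) ≤
        Submodule.span F (Set.range (fun χ : {χ : G × H → F // IsIrrTrace χ} => χ.1)) := by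
      have hr : Set.range (fun χ : {χ : G × H → F // IsIrrTrace χ} => χ.1) =
          {χ : G × H → F | IsIrrTrace χ} := Subtype.range_coe
      rw [hr, Submodule.span_le]
      rintro _ ⟨t, rfl⟩
      exact span' p F (G × H) _ (Cf_epA (m := φ t.1) (n := ψ t.2) (irr_class' (hφi _))
          (irr_class' (hψi _)))
        (fun x => pp_epA (irr_reg p (hφi _)) (irr_reg p (hψi _)) x)
    have f1 : Fintype {χ : G × H → F // IsIrrTrace χ} := Fintype.ofFinite _
    apply Submodule.eq_of_le_of_finrank_eq hle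
    rw [finrank_span_eq_card hfi, finrank_span_eq_card (Pool.Agent.Y914.NV.irr F (G × H)).2]
    have h3 := numRegularClasses_prod p G H
    rw [← card_IT p F G, ← card_IT p F H, ← card_IT p F (G × H), ← hm, ← hn,
      Nat.card_eq_fintype_card] at h3
    rw [h3, Fintype.card_prod, Fintype.card_fin, Fintype.card_fin]
  -- the two ranks
  have r1 := rank_eig (To (epA z w)) (fun χ : {χ : G × H → F // IsIrrTrace χ} => χ.1)
    (Pool.Agent.Y914.NV.irr F (G × H)).2 d (fun χ => funext fun x => hd1 χ x)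
  have r2 := rank_eig (To (epA z w)) fam hfi (fun t => c t.1 * c' t.2) (fun t =>
    To_epA (hc1 _) (hc1' _))
  rw [hspan, r1] at r2
  have e1 : lst (epA z w) = Nat.card {χ : {χ : G × H → F // IsIrrTrace χ} // d χ ≠ 0} := by
    unfold lst
    exact Nat.card_congr
      { toFun := fun χ => ⟨⟨χ.1, χ.2.1⟩, (hd2 _).mpr χ.2.2⟩
        invFun := fun χ => ⟨χ.1.1, χ.1.2, (hd2 _).mp χ.2⟩
        left_inv := fun χ => rfl
        right_inv := fun χ => rfl }
  have e2 : lst z = Nat.card {i // c i ≠ 0} := by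
    unfold lst
    symm
    refine Nat.card_congr (Equiv.ofBijective (fun i => ⟨φ i.1, hφi i.1, ?_⟩) ⟨?_, ?_⟩)
    · rw [← hc2]
      exact i.2
    · intro i j h
      have h' : φ i.1 = φ j.1 := by injection h
      exact Subtype.ext (e.injective (Subtype.ext h'))
    · rintro ⟨χ, h1, h2⟩
      obtain ⟨i, hi⟩ := e.surjective ⟨χ, h1⟩
      have h3 : φ i = χ := congrArg Subtype.val hi
      refine ⟨⟨i, ?_⟩, Subtype.ext h3⟩
      rw [hc2, h3]
      exact h2
  have e3 : lst w = Nat.card {i // c' i ≠ 0} := by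
    unfold lst
    symm
    refine Nat.card_congr (Equiv.ofBijective (fun i => ⟨ψ i.1, hψi i.1, ?_⟩) ⟨?_, ?_⟩)
    · rw [← hc2']
      exact i.2
    · intro i j h
      have h' : ψ i.1 = ψ j.1 := by injection h
      exact Subtype.ext (e'.injective (Subtype.ext h'))
    · rintro ⟨χ, h1, h2⟩
      obtain ⟨i, hi⟩ := e'.surjective ⟨χ, h1⟩
      have h3 : ψ i = χ := congrArg Subtype.val hi
      refine ⟨⟨i, ?_⟩, Subtype.ext h3⟩
      rw [hc2', h3]
      exact h2
  rw [e1, r2, e2, e3, ← Nat.card_prod]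
  exact Nat.card_congr
    { toFun := fun t => (⟨t.1.1, left_ne_zero_of_mul t.2⟩, ⟨t.1.2, right_ne_zero_of_mul t.2⟩)
      invFun := fun t => ⟨(t.1.1, t.2.1), mul_ne_zero t.1.2 t.2.2⟩
      left_inv := fun t => rfl
      right_inv := fun t => rfl }

end irr

end Pool.Agent.Q149.WC
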